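import Pool.Agent.X11.SecondDigit

/-!
# Question Q1 of MP_96deef_nt: yes, `m = 3` works for `p = 2`
-/

namespace Pool.Agent.Results.MP_96deef_nt.ThreeColours

open PowerSeries

/-- `c m n = S_{2,m}(n)` is the coefficient of `x^n` in
`(1-x)^{-m} ∏_{j ≥ 0} (1-x^{2^j})^{-m}` over the integers.  The factors with `j > n` are
`1 + O(x^{n+1})`, so they do not influence this coefficient and the product is cut at `j = n`. -/
noncomputable def c (m n : ℕ) : ℤ :=
  coeff n ((invOfUnit (1 - X : ℤ⟦X⟧) 1) ^ m *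
    ∏ j ∈ Finset.range (n + 1), (invOfUnit (1 - X ^ (2 ^ j) : ℤ⟦X⟧) 1) ^ m)

/-- `u m n = ν_2(w - 1)`, where `c m n = 2^a w` with `w` odd. -/
noncomputable def u (m n : ℕ) : ℕ∞ :=
  emultiplicity 2 (c m n / 2 ^ (padicValInt 2 (c m n)) - 1)

lemma c_eq (m n : ℕ) : c m n = X11.ColPart.S 2 m n := by
  unfold c X11.ColPart.S
  norm_num

lemma val_of_odd (a : ℕ) (w : ℤ) (hw : Odd w) : padicValInt 2 (2 ^ a * w) = a := by
  have : Fact (Nat.Prime 2) := ⟨Nat.prime_two⟩
  have hw0 : w ≠ 0 := by rintro rfl; simp at hw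
  have h2 : (2 : ℤ) ^ a ≠ 0 := by positivity
  have h3 : padicValInt 2 ((2 : ℤ) ^ a) = a := by
    have := padicValInt.of_nat (p := 2) (n := 2 ^ a)
    push_cast at this
    rw [this, padicValNat.prime_pow]
  rw [padicValInt.mul h2 hw0, h3, padicValInt.eq_zero_of_not_dvd, add_zero]
  rwa [Nat.cast_ofNat, ← even_iff_two_dvd, Int.not_even_iff_odd]

lemma u_of (m n a b : ℕ) (r : ℤ) (h : c m n = 2 ^ a * (1 + 2 ^ (b + 1) * (1 + 2 * r))) :
    u m n = ((b + 1 : ℕ) : ℕ∞) := by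
  have ho : Odd (1 + 2 ^ (b + 1) * (1 + 2 * r)) := ⟨2 ^ b * (1 + 2 * r), by ring⟩
  unfold u
  rw [h, val_of_odd _ _ ho, Int.mul_ediv_cancel_left _ (by positivity), add_sub_cancel_left]
  rw [emultiplicity_eq_coe]
  constructor
  · exact dvd_mul_right _ _
  · intro h2
    rw [pow_succ _ (b + 1)] at h2
    have h3 := Int.dvd_of_mul_dvd_mul_left (by positivity) h2
    omega

lemma values (n : ℕ) (hn : 0 < n) : u 3 n = 1 ∨ u 3 n = 2 := by
  have h := X11.ColPart.c3_all n hn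
  rw [← c_eq] at h
  rcases h with (⟨r, hr⟩ | ⟨r, hr⟩) | (⟨r, hr⟩ | ⟨r, hr⟩)
  · right; have := u_of 3 n 1 1 r (by linear_combination hr); simpa using this
  · left; have := u_of 3 n 1 0 (2 * r) (by linear_combination hr); simpa using this
  · left; have := u_of 3 n 3 0 (2 * r) (by linear_combination hr); simpa using this
  · right; have := u_of 3 n 3 1 r (by linear_combination hr); simpa using this

theorem result :
    (∀ n : ℕ, 0 < n → u 3 n = 1 ∨ u 3 n = 2) ∧
    ∃ m : ℕ, 0 < m ∧ {e : ℕ∞ | ∃ n : ℕ, 0 < n ∧ u m n = e}.Finite := by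
  refine ⟨values, 3, by norm_num, ?_⟩
  refine Set.Finite.subset (Set.toFinite {1, 2}) ?_
  rintro e ⟨n, hn, rfl⟩
  rcases values n hn with h | h
  · rw [h]; simp
  · rw [h]; simp

end Pool.Agent.Results.MP_96deef_nt.ThreeColours
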